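import Pool.Agent.W5h34.RG.Hz
import Pool.Agent.R352.E.Cnt

/-!
# Generalized Gompertz numbers at all rational exponents
-/

set_option autoImplicit false

open Filter Topology Set MeasureTheory

namespace Pool.Agent.W5h34.RG

open Pool.Agent.R352.E (zt clF subset_clF clF_mono clF_le of_pow rat_mem mem_clF dl EE EE_mem exp_rat_mem log_bound)
open Pool.Agent.R352.T (EA EA_mem NA_mem ga EA_alg_Q NA_zero)

/-- integrability of `log(1+s/x)^l e^(-s)` -/
lemma dl_integrable (l : ℕ) {x : ℝ} (hx : 0 < x) :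
    IntegrableOn (fun s : ℝ => Real.log (1 + s / x) ^ l * Real.exp (-s)) (Ioi 0) := by
  have h1 : IntegrableOn (fun s : ℝ => (1 / x) ^ l * (Real.exp (-s) * s ^ (((l : ℝ) + 1) - 1))) (Ioi 0) :=
    (Real.GammaIntegral_convergent (s := (l : ℝ) + 1) (by positivity)).const_mul _
  refine h1.mono' ?_ ?_
  · refine ContinuousOn.aestronglyMeasurable ?_ measurableSet_Ioi
    refine ContinuousOn.mul (ContinuousOn.pow (ContinuousOn.log (by fun_prop) ?_) _) (by fun_prop)
    intro s hs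
    have hs' : (0 : ℝ) < s := hs
    positivity
  · filter_upwards [ae_restrict_mem measurableSet_Ioi] with s hs
    have hs' : (0 : ℝ) < s := hs
    obtain ⟨h2, h3⟩ := log_bound hx hs'.le
    rw [norm_mul, norm_pow, Real.norm_eq_abs, Real.norm_eq_abs, abs_of_nonneg h2, abs_of_nonneg (Real.exp_pos _).le]
    rw [add_sub_cancel_right, Real.rpow_natCast]
    calc Real.log (1 + s / x) ^ l * Real.exp (-s) ≤ (s / x) ^ l * Real.exp (-s) :=
          mul_le_mul_of_nonneg_right (pow_le_pow_left₀ h2 h3 l) (Real.exp_pos _).le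
      _ = _ := by rw [div_pow, one_div, inv_pow]; ring

/-- the relation at the exponent `0` -/
lemma ga_zero (l : ℕ) {x : ℝ} (hx : 0 < x) : ((l : ℝ) + 1) * ga 0 l x = x * dl (l + 1) x := by
  have hd : ∀ s ∈ Ici (0 : ℝ), HasDerivAt (fun s : ℝ => Real.log (1 + s / x) ^ (l + 1) * Real.exp (-s))
      (((l : ℝ) + 1) / x * ((1 + s / x) ^ ((0 : ℝ) - 1) * Real.log (1 + s / x) ^ l * Real.exp (-s)) -
        Real.log (1 + s / x) ^ (l + 1) * Real.exp (-s)) s := by
    intro s hs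
    have hs' : (0 : ℝ) ≤ s := hs
    have hp : 0 < 1 + s / x := by positivity
    have h1 : HasDerivAt (fun s : ℝ => 1 + s / x) (1 / x) s := by
      simpa using ((hasDerivAt_id s).div_const x).const_add 1
    have h2 := (h1.log hp.ne').pow (l + 1)
    have h3 : HasDerivAt (fun s : ℝ => Real.exp (-s)) (Real.exp (-s) * (-1)) s :=
      (hasDerivAt_neg s).exp
    have h4 := h2.mul h3
    refine (h4.congr_of_eventuallyEq (Eventually.of_forall fun _ => rfl)).congr_deriv ?_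
    have e : (1 + s / x) ^ ((0 : ℝ) - 1) = (1 + s / x)⁻¹ := by
      rw [zero_sub, Real.rpow_neg_one]
    rw [e]
    simp only [Nat.add_sub_cancel, Pi.pow_apply]
    push_cast
    field_simp
    ring
  have hi1 := dl_integrable (l + 1) hx
  have hi2 : IntegrableOn (fun s : ℝ => (1 + s / x) ^ ((0 : ℝ) - 1) * Real.log (1 + s / x) ^ l * Real.exp (-s)) (Ioi 0) := by
    refine (dl_integrable l hx).mono' ?_ ?_
    · refine ContinuousOn.aestronglyMeasurable ?_ measurableSet_Ioi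
      refine ContinuousOn.mul (ContinuousOn.mul (ContinuousOn.rpow_const (by fun_prop) ?_)
        (ContinuousOn.pow (ContinuousOn.log (by fun_prop) ?_) _)) (by fun_prop)
      · intro s hs
        have hs' : (0 : ℝ) < s := hs
        left
        positivity
      · intro s hs
        have hs' : (0 : ℝ) < s := hs
        positivity
    · filter_upwards [ae_restrict_mem measurableSet_Ioi] with s hs
      have hs' : (0 : ℝ) < s := hs
      obtain ⟨h2, h3⟩ := log_bound hx hs'.le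
      have hp : 1 ≤ 1 + s / x := by have : 0 ≤ s / x := by positivity
                                    linarith
      have e : (1 + s / x) ^ ((0 : ℝ) - 1) ≤ 1 := Real.rpow_le_one_of_one_le_of_nonpos hp (by norm_num)
      have e0 : 0 ≤ (1 + s / x) ^ ((0 : ℝ) - 1) := by positivity
      rw [norm_mul, norm_mul, norm_pow, Real.norm_eq_abs, Real.norm_eq_abs, Real.norm_eq_abs, abs_of_nonneg h2,
        abs_of_nonneg (Real.exp_pos _).le, abs_of_nonneg e0, mul_assoc]
      exact mul_le_of_le_one_left (mul_nonneg (pow_nonneg h2 _) (Real.exp_pos _).le) e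
  have hlim : Tendsto (fun s : ℝ => Real.log (1 + s / x) ^ (l + 1) * Real.exp (-s)) atTop (𝓝 0) := by
    have h1 : Tendsto (fun s : ℝ => (1 / x) ^ (l + 1) * (s ^ (l + 1) * Real.exp (-s))) atTop (𝓝 0) := by
      have := (Real.tendsto_pow_mul_exp_neg_atTop_nhds_zero (l + 1)).const_mul ((1 / x) ^ (l + 1))
      simpa using this
    refine squeeze_zero_norm' ?_ h1
    filter_upwards [eventually_ge_atTop 0] with s hs
    obtain ⟨h2, h3⟩ := log_bound hx hs
    rw [norm_mul, norm_pow, Real.norm_eq_abs, Real.norm_eq_abs, abs_of_nonneg h2, abs_of_nonneg (Real.exp_pos _).le]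
    calc Real.log (1 + s / x) ^ (l + 1) * Real.exp (-s) ≤ (s / x) ^ (l + 1) * Real.exp (-s) :=
          mul_le_mul_of_nonneg_right (pow_le_pow_left₀ h2 h3 _) (Real.exp_pos _).le
      _ = _ := by rw [div_pow, one_div, inv_pow]; ring
  have h := integral_Ioi_of_hasDerivAt_of_tendsto' hd ((hi2.const_mul _).sub hi1) hlim
  rw [integral_sub (hi2.const_mul _) hi1, integral_const_mul] at h
  have e0 : Real.log (1 + 0 / x) ^ (l + 1) * Real.exp (-0) = 0 := by simp
  rw [e0, sub_zero] at h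
  have e1 : ∫ s in Ioi (0 : ℝ), (1 + s / x) ^ ((0 : ℝ) - 1) * Real.log (1 + s / x) ^ l * Real.exp (-s) = ga 0 l x := rfl
  have e2 : ∫ s in Ioi (0 : ℝ), Real.log (1 + s / x) ^ (l + 1) * Real.exp (-s) = dl (l + 1) x := rfl
  rw [e1, e2] at h
  have hx' := hx.ne'
  field_simp at h
  linarith

/-- what has to be known about the exponent `a`, the level `l` and the point `x` -/
structure Adm (T : Set ℝ) (l : ℕ) (a x : ℚ) : Prop where
  pos : 0 < a → Real.Gamma a ∈ clF T ∧ (1 ≤ l → pr 0 a - Real.log x ∈ clF T) ∧ ∀ s, 2 ≤ s → s ≤ l → hz s a ∈ clF T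
  zero : a = 0 → Real.eulerMascheroniConstant + Real.log x ∈ clF T ∧ ∀ s, 2 ≤ s → s ≤ l + 1 → zt s ∈ clF T

lemma Adm.mono {T U : Set ℝ} (h : clF T ≤ clF U) {l : ℕ} {a x : ℚ} (H : Adm T l a x) : Adm U l a x :=
  ⟨fun ha => ⟨h (H.pos ha).1, fun hl => h ((H.pos ha).2.1 hl), fun s hs hs' => h ((H.pos ha).2.2 s hs hs')⟩,
    fun ha => ⟨h (H.zero ha).1, fun s hs hs' => h ((H.zero ha).2 s hs hs')⟩⟩

lemma EA_zero_eq (l : ℕ) (x : ℝ) : EA 0 l x = EE l x := by
  rw [EA, EE]
  simp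

lemma EA_all {T : Set ℝ} {l : ℕ} {a x : ℚ} (ha : 0 ≤ a) (hx : 0 < x) (he : Real.exp 1 ∈ clF T) (H : Adm T l a x)
    (hg : ga a l x ∈ clF T) : EA a (l + 1) x ∈ clF T := by
  have hx' : (0 : ℝ) < x := by exact_mod_cast hx
  rcases ha.eq_or_lt with h0 | h0
  · subst h0
    obtain ⟨h1, h2⟩ := H.zero rfl
    rw [Rat.cast_zero] at hg ⊢
    rw [EA_zero_eq]
    refine EE_mem hx he h1 (l + 1) h2 ?_
    have h3 := ga_zero l hx'
    have h4 : dl (l + 1) x = ((l : ℝ) + 1) * ga 0 l x / x := by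
      rw [h3]; field_simp
    rw [h4]
    exact (clF T).div_mem ((clF T).mul_mem ((clF T).add_mem (natCast_mem _ _) (clF T).one_mem) hg) (rat_mem T x)
  · have ha' : (0 : ℝ) < a := by exact_mod_cast h0
    obtain ⟨h1, h2, h3⟩ := H.pos h0
    refine EA_mem h0 hx he l ?_ hg
    rcases Nat.eq_zero_or_pos l with hl | hl
    · subst hl
      rw [NA_zero ha']
      exact h1
    · refine NA_mem ha' (c := fun i => pr i a) (fun i => pr_eq i ha') h1 (h2 hl) l fun i hi hi' => ?_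
      obtain ⟨j, rfl⟩ : ∃ j, i = j + 1 := ⟨i - 1, by omega⟩
      simp only [pr]
      exact (clF T).mul_mem ((clF T).mul_mem ((clF T).pow_mem ((clF T).neg_mem (clF T).one_mem) _) (natCast_mem _ _))
        (h3 _ (by omega) (by omega))

/-- the index set -/
abbrev PI : Type := {p : ℕ × ℚ × ℚ // 0 ≤ p.2.1 ∧ p.2.1 < 1 ∧ 0 < p.2.2}

theorem AI_sub {P : Type*} (f : P → PI) (hf : Function.Injective f) :
    AlgebraicIndependent ℚ (fun o : Option P => o.elim (Real.exp 1)
      (fun p => EA (f p).1.2.1 ((f p).1.1 + 1) (f p).1.2.2)) := by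
  have h2 := EA_alg_Q.comp (Option.map f) (Option.map_injective hf)
  convert h2 using 1
  ext o
  cases o <;> simp

section

variable {κ : Type*} [Fintype κ]

/-- the counting theorem -/
theorem count_all (y : κ → ℝ) (P : Set (ℕ × ℚ × ℚ))
    (hP : ∀ p ∈ P, 0 ≤ p.2.1 ∧ p.2.1 < 1 ∧ 0 < p.2.2 ∧ Adm ({Real.exp 1} ∪ range y) p.1 p.2.1 p.2.2) :
    {i : κ ⊕ (ℕ × ℚ × ℚ) | Sum.elim (fun j => y j ∈ clF {Real.exp 1})
      (fun p => p ∈ P ∧ ga p.2.1 p.1 p.2.2 ∈ clF {Real.exp 1}) i}.encard ≤ (Fintype.card κ : ℕ∞) := by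
  let f : P → PI := fun p => ⟨p.1, (hP _ p.2).1, (hP _ p.2).2.1, (hP _ p.2).2.2.1⟩
  have hf : Function.Injective f := fun p p' h => Subtype.ext (congrArg (fun q : PI => q.1) h)
  have h := Pool.Agent.R352.T.count_fin (AI_sub f hf) (R := fun p : P => ga p.1.2.1 p.1.1 p.1.2.2) y
    (fun p T hT hR => EA_all (f p).2.1 (f p).2.2.2 (hT (Or.inl rfl)) ((hP _ p.2).2.2.2.mono (clF_le hT)) hR)
  let g : κ ⊕ P → κ ⊕ (ℕ × ℚ × ℚ) := Sum.map id Subtype.val
  have hg : Function.Injective g := Function.Injective.sumMap Function.injective_id Subtype.val_injective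
  refine le_trans (encard_le_encard (t := g '' {i | Sum.elim y (fun p : P => ga p.1.2.1 p.1.1 p.1.2.2) i ∈ clF {Real.exp 1}})
    ?_) ((hg.encard_image _).trans_le h)
  rintro (i | p) hi
  · exact ⟨Sum.inl i, hi, rfl⟩
  · exact ⟨Sum.inr ⟨p, hi.1⟩, hi.2, rfl⟩

/-- the transcendence degree -/
theorem trdeg_all (y : κ → ℝ) (S : Finset (ℕ × ℚ × ℚ))
    (hS : ∀ p ∈ S, 0 ≤ p.2.1 ∧ p.2.1 < 1 ∧ 0 < p.2.2 ∧ Adm ({Real.exp 1} ∪ range y) p.1 p.2.1 p.2.2) :
    ((S.card + 1 : ℕ) : Cardinal) ≤ Algebra.trdeg ℚ (IntermediateField.adjoin ℚ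
      ({Real.exp 1} ∪ range y ∪ (fun p : ℕ × ℚ × ℚ => ga p.2.1 p.1 p.2.2) '' (S : Set (ℕ × ℚ × ℚ)))) := by
  classical
  let f : S → PI := fun p => ⟨p.1, (hS _ p.2).1, (hS _ p.2).2.1, (hS _ p.2).2.2.1⟩
  have hf : Function.Injective f := fun p p' h => Subtype.ext (congrArg (fun q : PI => q.1) h)
  have h := Pool.Agent.R352.T.trdeg_fin (AI_sub f hf) (R := fun p : S => ga p.1.2.1 p.1.1 p.1.2.2) y
    (fun p T hT hR => EA_all (f p).2.1 (f p).2.2.2 (hT (Or.inl rfl)) ((hS _ p.2).2.2.2.mono (clF_le hT)) hR) Finset.univ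
  have e : (fun p : S => ga p.1.2.1 p.1.1 p.1.2.2) '' ((Finset.univ : Finset S) : Set S) =
      (fun p : ℕ × ℚ × ℚ => ga p.2.1 p.1 p.2.2) '' (S : Set (ℕ × ℚ × ℚ)) := by
    ext z
    constructor
    · rintro ⟨p, -, rfl⟩
      exact ⟨p.1, p.2, rfl⟩
    · rintro ⟨p, hp, rfl⟩
      exact ⟨⟨p, hp⟩, by simp, rfl⟩
  rw [e] at h
  simpa using h

end

end Pool.Agent.W5h34.RG
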