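import Pool.Agent.R352.T.Count2

/-!
# Gamma and polygamma values at rational points: reflection, duplication, triplication
-/

set_option autoImplicit false

open Filter Topology Set MeasureTheory

namespace Pool.Agent.W5h34.RG

open Pool.Agent.R352.E (fr fl psi pd pdx pd_deriv mellin_rec Gamma_deriv zt PE dPE clF subset_clF clF_mono clF_le
  of_pow rat_mem mem_clF psi_one)

/-! ## algebraic numbers -/

lemma alg_mem {T : Set ℝ} {x : ℝ} (hx : IsAlgebraic ℤ x) : x ∈ clF T := by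
  rw [mem_clF]
  have h1 : IsAlgebraic ℚ x := (IsFractionRing.isAlgebraic_iff ℤ ℚ ℝ).1 hx
  exact h1.tower_top _

lemma cos_mem (T : Set ℝ) (a : ℚ) : Real.cos (a * Real.pi) ∈ clF T := alg_mem (Real.isAlgebraic_cos_rat_mul_pi a)

lemma sin_mem (T : Set ℝ) (a : ℚ) : Real.sin (a * Real.pi) ∈ clF T := alg_mem (Real.isAlgebraic_sin_rat_mul_pi a)

/-! ## real polygamma functions -/

/-- Hurwitz zeta values -/
noncomputable def hz (s : ℕ) (a : ℝ) : ℝ := ∑' n : ℕ, 1 / ((n : ℝ) + a) ^ s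

/-- the real polygamma functions -/
noncomputable def pr : ℕ → ℝ → ℝ
  | 0, a => -Real.eulerMascheroniConstant - 1 / a + ∑' n : ℕ, (1 / ((n : ℝ) + 1) - 1 / (a + ((n : ℝ) + 1)))
  | (i + 1), a => (-1) ^ i * (i + 1).factorial * hz (i + 2) a

lemma summ_hz {s : ℕ} (hs : 2 ≤ s) {a : ℝ} (ha : 0 < a) : Summable (fun n : ℕ => 1 / ((n : ℝ) + a) ^ s) := by
  rw [← summable_nat_add_iff 1]
  refine Summable.of_nonneg_of_le (fun n => by positivity) (fun n => ?_) (Pool.Agent.R352.T.summ_one s hs)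
  refine one_div_le_one_div_of_le (by positivity) (pow_le_pow_left₀ (by positivity) ?_ s)
  push_cast
  linarith

lemma pr_eq (i : ℕ) {a : ℝ} (ha : 0 < a) : pd i (a : ℂ) = ((pr i a : ℝ) : ℂ) := by
  cases i with
  | zero =>
    rw [pd, psi, pr]
    simp only [Pool.Agent.W45.WP.dg]
    push_cast
    rfl
  | succ i =>
    rw [pd, pdx, pr, hz, (summ_hz (by omega) ha).tsum_eq_zero_add]
    push_cast
    rw [zero_add]
    congr 2
    refine tsum_congr (β := ℕ) (α := ℂ) fun n => ?_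
    congr 2
    ring

lemma pr_deriv (i : ℕ) {a : ℝ} (ha : 0 < a) : HasDerivAt (pr i) (pr (i + 1) a) a := by
  have h := (pd_deriv i (s := (a : ℂ)) (by simpa using ha)).real_of_complex
  rw [pr_eq (i + 1) ha, Complex.ofReal_re] at h
  refine h.congr_of_eventuallyEq ?_
  filter_upwards [Ioi_mem_nhds ha] with y hy
  rw [pr_eq i hy, Complex.ofReal_re]

lemma Gam_deriv {a : ℝ} (ha : 0 < a) : HasDerivAt Real.Gamma (Real.Gamma a * pr 0 a) a := by
  have h := (Gamma_deriv (s := (a : ℂ)) (by simpa using ha)).real_of_complex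
  have e : (Complex.Gamma a * psi a).re = Real.Gamma a * pr 0 a := by
    have h1 : psi (a : ℂ) = ((pr 0 a : ℝ) : ℂ) := pr_eq 0 ha
    rw [h1, Complex.Gamma_ofReal, ← Complex.ofReal_mul, Complex.ofReal_re]
  rw [e] at h
  refine h.congr_of_eventuallyEq ?_
  filter_upwards with y
  rw [Complex.Gamma_ofReal, Complex.ofReal_re]

lemma digamma_eq {a : ℝ} (ha : 0 < a) : deriv Real.Gamma a / Real.Gamma a = pr 0 a := by
  rw [(Gam_deriv ha).deriv, mul_div_cancel_left₀ _ (Real.Gamma_pos_of_pos ha).ne']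

lemma pr_zero_one : pr 0 1 = -Real.eulerMascheroniConstant := by
  have h := pr_eq 0 one_pos
  rw [Complex.ofReal_one] at h
  have h2 : ((pr 0 1 : ℝ) : ℂ) = ((-Real.eulerMascheroniConstant : ℝ) : ℂ) := by
    rw [← h, Complex.ofReal_neg]
    exact psi_one
  exact_mod_cast h2

/-! ## reflection -/

lemma refl_zero {a : ℝ} (ha : 0 < a) (ha1 : a < 1) :
    pr 0 (1 - a) - pr 0 a = Real.pi * (Real.cos (Real.pi * a) / Real.sin (Real.pi * a)) := by
  have hs : 0 < Real.sin (Real.pi * a) := Real.sin_pos_of_pos_of_lt_pi (by positivity) (by nlinarith [Real.pi_pos])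
  have h1 := Gam_deriv ha
  have h2 : HasDerivAt (fun s : ℝ => Real.Gamma (1 - s)) (Real.Gamma (1 - a) * pr 0 (1 - a) * (-1)) a := by
    have h3 : HasDerivAt (fun s : ℝ => 1 - s) (-1) a := by
      simpa using (hasDerivAt_id a).const_sub 1
    exact (Gam_deriv (show 0 < 1 - a by linarith)).comp a h3
  have h3 := h1.mul h2
  have h4 : HasDerivAt (fun s : ℝ => Real.pi / Real.sin (Real.pi * s))
      (-(Real.pi * (Real.cos (Real.pi * a) * Real.pi)) / Real.sin (Real.pi * a) ^ 2) a := by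
    have h5 : HasDerivAt (fun s : ℝ => Real.pi * s) Real.pi a := by
      simpa using (hasDerivAt_id a).const_mul Real.pi
    have h6 : HasDerivAt (fun s : ℝ => Real.sin (Real.pi * s)) (Real.cos (Real.pi * a) * Real.pi) a :=
      (Real.hasDerivAt_sin _).comp a h5
    have h7 := (hasDerivAt_const a Real.pi).div h6 hs.ne'
    refine (h7.congr_of_eventuallyEq (Eventually.of_forall fun _ => rfl)).congr_deriv ?_
    ring
  have h5 : (Real.Gamma * fun s : ℝ => Real.Gamma (1 - s)) = fun s : ℝ => Real.pi / Real.sin (Real.pi * s) := by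
    funext s
    exact Real.Gamma_mul_Gamma_one_sub s
  rw [h5] at h3
  have h6 := h3.unique h4
  have h7 := Real.Gamma_mul_Gamma_one_sub a
  have hs' := hs.ne'
  have h8 : (Real.Gamma a * Real.Gamma (1 - a)) * (pr 0 (1 - a) - pr 0 a) =
      (Real.pi * (Real.cos (Real.pi * a) * Real.pi)) / Real.sin (Real.pi * a) ^ 2 := by
    linear_combination -h6
  rw [h7] at h8
  have hpi := Real.pi_pos.ne'
  field_simp at h8 ⊢
  linear_combination h8

/-- the functions `(-1)^i ψ^(i) (1 - x) - ψ^(i) (x)` -/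
noncomputable def Dr (i : ℕ) (x : ℝ) : ℝ := (-1) ^ i * pr i (1 - x) - pr i x

lemma Dr_deriv (i : ℕ) {a : ℝ} (ha : 0 < a) (ha1 : a < 1) : HasDerivAt (Dr i) (Dr (i + 1) a) a := by
  have h3 : HasDerivAt (fun s : ℝ => 1 - s) (-1) a := by
    simpa using (hasDerivAt_id a).const_sub 1
  have h4 := ((pr_deriv i (show 0 < 1 - a by linarith)).comp a h3).const_mul ((-1 : ℝ) ^ i)
  refine (h4.sub (pr_deriv i ha)).congr_deriv ?_
  rw [Dr, pow_succ]
  ring

/-- the polynomials expressing the derivatives of `π cot (π x)` -/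
noncomputable def cp (F : Subfield ℝ) (p : F) : ℕ → Polynomial F
  | 0 => Polynomial.X
  | (i + 1) => -(Polynomial.X ^ 2 + Polynomial.C (p ^ 2)) * Polynomial.derivative (cp F p i)

lemma cot_deriv {a : ℝ} (ha : 0 < a) (ha1 : a < 1) : HasDerivAt (Dr 0) (-(Dr 0 a ^ 2 + Real.pi ^ 2)) a := by
  have hs : 0 < Real.sin (Real.pi * a) := Real.sin_pos_of_pos_of_lt_pi (by positivity) (by nlinarith [Real.pi_pos])
  have h5 : HasDerivAt (fun s : ℝ => Real.pi * s) Real.pi a := by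
    simpa using (hasDerivAt_id a).const_mul Real.pi
  have h6 : HasDerivAt (fun s : ℝ => Real.sin (Real.pi * s)) (Real.cos (Real.pi * a) * Real.pi) a :=
    (Real.hasDerivAt_sin _).comp a h5
  have h7 : HasDerivAt (fun s : ℝ => Real.cos (Real.pi * s)) (-Real.sin (Real.pi * a) * Real.pi) a :=
    (Real.hasDerivAt_cos _).comp a h5
  have h8 := (h7.div h6 hs.ne').const_mul Real.pi
  have h9 : Dr 0 =ᶠ[𝓝 a] fun s : ℝ => Real.pi * (Real.cos (Real.pi * s) / Real.sin (Real.pi * s)) := by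
    filter_upwards [Ioo_mem_nhds ha ha1] with y hy
    rw [Dr, pow_zero, one_mul, refl_zero hy.1 hy.2]
  refine (h8.congr_of_eventuallyEq h9).congr_deriv ?_
  have h10 : Dr 0 a = Real.pi * (Real.cos (Real.pi * a) / Real.sin (Real.pi * a)) := h9.eq_of_nhds
  rw [h10]
  have hs' := hs.ne'
  field_simp
  ring

lemma Dr_eq (F : Subfield ℝ) (hpi : Real.pi ∈ F) (i : ℕ) : ∀ {a : ℝ}, 0 < a → a < 1 →
    Dr i a = Polynomial.aeval (Dr 0 a) (cp F ⟨Real.pi, hpi⟩ i) := by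
  induction i with
  | zero => intro a _ _; rw [cp, Polynomial.aeval_X]
  | succ i ih =>
    intro a ha ha1
    have h1 : HasDerivAt (fun x => Polynomial.aeval (Dr 0 x) (cp F ⟨Real.pi, hpi⟩ i))
        (Polynomial.aeval (Dr 0 a) (Polynomial.derivative (cp F ⟨Real.pi, hpi⟩ i)) * (-(Dr 0 a ^ 2 + Real.pi ^ 2))) a :=
      (Polynomial.hasDerivAt_aeval (cp F ⟨Real.pi, hpi⟩ i) (Dr 0 a)).comp a (cot_deriv ha ha1)
    have h2 : HasDerivAt (Dr i)
        (Polynomial.aeval (Dr 0 a) (Polynomial.derivative (cp F ⟨Real.pi, hpi⟩ i)) * (-(Dr 0 a ^ 2 + Real.pi ^ 2))) a := by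
      refine h1.congr_of_eventuallyEq ?_
      filter_upwards [Ioo_mem_nhds ha ha1] with y hy
      exact ih hy.1 hy.2
    rw [(Dr_deriv i ha ha1).unique h2, cp]
    have e : algebraMap F ℝ (⟨Real.pi, hpi⟩ ^ 2) = Real.pi ^ 2 := rfl
    rw [map_mul, map_neg, map_add, map_pow, Polynomial.aeval_X, Polynomial.aeval_C, e]
    ring

lemma Dr_mem {T : Set ℝ} (hpi : Real.pi ∈ clF T) {a : ℚ} (ha : 0 < a) (ha1 : a < 1) (i : ℕ) : Dr i a ∈ clF T := by
  have ha' : (0 : ℝ) < a := by exact_mod_cast ha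
  have ha1' : (a : ℝ) < 1 := by exact_mod_cast ha1
  have h0 : Dr 0 a ∈ clF T := by
    rw [Dr, pow_zero, one_mul, refl_zero ha' ha1', mul_comm Real.pi (a : ℝ)]
    exact (clF T).mul_mem hpi ((clF T).div_mem (cos_mem T a) (sin_mem T a))
  rw [Dr_eq (clF T) hpi i ha' ha1']
  have h2 : Polynomial.aeval (Dr 0 a) (cp (clF T) ⟨Real.pi, hpi⟩ i) =
      algebraMap (clF T) ℝ (Polynomial.aeval (⟨Dr 0 a, h0⟩ : clF T) (cp (clF T) ⟨Real.pi, hpi⟩ i)) := by
    rw [← Polynomial.aeval_algebraMap_apply]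
    rfl
  rw [h2]
  exact SetLike.coe_mem _

/-- reflection for the digamma function -/
lemma pr_refl {T : Set ℝ} (hpi : Real.pi ∈ clF T) {a : ℚ} (ha : 0 < a) (ha1 : a < 1) (i : ℕ) {c : ℝ}
    (h : pr i a + (-1) ^ i * c ∈ clF T) : pr i ((1 - a : ℚ) : ℝ) + c ∈ clF T := by
  have h1 := Dr_mem hpi ha ha1 i
  rw [Dr] at h1
  have h5 : (-1 : ℝ) ^ i * (-1) ^ i = 1 := by rw [← mul_pow]; norm_num
  have h2 : pr i ((1 - a : ℚ) : ℝ) + c =
      (-1) ^ i * (((-1) ^ i * pr i (1 - a) - pr i a) + (pr i a + (-1) ^ i * c)) := by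
    push_cast
    linear_combination (-(pr i (1 - (a : ℝ)) + c)) * h5
  rw [h2]
  exact (clF T).mul_mem ((clF T).pow_mem ((clF T).neg_mem (clF T).one_mem) _) ((clF T).add_mem h1 h)

/-- reflection for Hurwitz zeta values -/
lemma hz_refl {T : Set ℝ} (hpi : Real.pi ∈ clF T) {a : ℚ} (ha : 0 < a) (ha1 : a < 1) {s : ℕ} (hs : 2 ≤ s)
    (h : hz s a ∈ clF T) : hz s ((1 - a : ℚ) : ℝ) ∈ clF T := by
  obtain ⟨i, rfl⟩ : ∃ i, s = i + 2 := ⟨s - 2, by omega⟩
  have h1 := pr_refl hpi ha ha1 (i + 1) (c := 0) (by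
    rw [mul_zero, add_zero, pr]
    exact (clF T).mul_mem ((clF T).mul_mem ((clF T).pow_mem ((clF T).neg_mem (clF T).one_mem) _) (natCast_mem _ _)) h)
  rw [add_zero, pr] at h1
  have h5 : (-1 : ℝ) ^ i * (-1) ^ i = 1 := by rw [← mul_pow]; norm_num
  have h6 : (((i + 1).factorial : ℕ) : ℝ) ≠ 0 := by positivity
  have h2 : hz (i + 2) ((1 - a : ℚ) : ℝ) = (-1) ^ i * ((-1) ^ i * (i + 1).factorial * hz (i + 2) ((1 - a : ℚ) : ℝ)) /
      (i + 1).factorial := by
    rw [eq_div_iff h6, ← mul_assoc, ← mul_assoc, h5, one_mul, mul_comm]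
  rw [h2]
  exact (clF T).div_mem ((clF T).mul_mem ((clF T).pow_mem ((clF T).neg_mem (clF T).one_mem) _) h1) (natCast_mem _ _)

/-- the parity relation for Hurwitz zeta values -/
lemma hz_par {T : Set ℝ} (hpi : Real.pi ∈ clF T) {a : ℚ} (ha : 0 < a) (ha1 : a < 1) {s : ℕ} (hs : 2 ≤ s) :
    hz s a + (-1) ^ s * hz s ((1 - a : ℚ) : ℝ) ∈ clF T := by
  obtain ⟨i, rfl⟩ : ∃ i, s = i + 2 := ⟨s - 2, by omega⟩
  have h1 := Dr_mem hpi ha ha1 (i + 1)
  rw [Dr, pr] at h1
  have h5 : (-1 : ℝ) ^ i * (-1) ^ i = 1 := by rw [← mul_pow]; norm_num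
  have h6 : (((i + 1).factorial : ℕ) : ℝ) ≠ 0 := by positivity
  have h2 : hz (i + 2) a + (-1) ^ (i + 2) * hz (i + 2) ((1 - a : ℚ) : ℝ) =
      -((-1) ^ i * ((-1) ^ (i + 1) * ((-1) ^ i * ↑(i + 1).factorial * hz (i + 2) (1 - (a : ℝ))) -
        (-1) ^ i * ↑(i + 1).factorial * hz (i + 2) a)) / (i + 1).factorial := by
    rw [eq_div_iff h6]
    push_cast
    linear_combination (-((i + 1).factorial * (-1 : ℝ) ^ i * hz (i + 2) (1 - (a : ℝ))) - (i + 1).factorial * hz (i + 2) a) * h5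
  rw [h2]
  exact (clF T).div_mem ((clF T).neg_mem ((clF T).mul_mem ((clF T).pow_mem ((clF T).neg_mem (clF T).one_mem) _) h1))
    (natCast_mem _ _)

lemma Gam_refl {T : Set ℝ} (hpi : Real.pi ∈ clF T) {a : ℚ} (ha : 0 < a)
    (h : Real.Gamma a ∈ clF T) : Real.Gamma ((1 - a : ℚ) : ℝ) ∈ clF T := by
  have ha' : (0 : ℝ) < a := by exact_mod_cast ha
  have h1 := Real.Gamma_mul_Gamma_one_sub (a : ℝ)
  have h2 : Real.Gamma ((1 - a : ℚ) : ℝ) = Real.pi / Real.sin (a * Real.pi) / Real.Gamma a := by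
    rw [eq_div_iff (Real.Gamma_pos_of_pos ha').ne', mul_comm (a : ℝ), ← h1]
    push_cast
    ring
  rw [h2]
  exact (clF T).div_mem ((clF T).div_mem hpi (sin_mem T a)) h

/-! ## duplication -/

lemma dup_zero {a : ℝ} (ha : 0 < a) : pr 0 a + pr 0 (a + 1 / 2) = 2 * pr 0 (2 * a) - 2 * Real.log 2 := by
  have h1 := Gam_deriv ha
  have h2 : HasDerivAt (fun s : ℝ => Real.Gamma (s + 1 / 2)) (Real.Gamma (a + 1 / 2) * pr 0 (a + 1 / 2)) a :=
    HasDerivAt.comp_add_const a (1 / 2) (Gam_deriv (show 0 < a + 1 / 2 by linarith))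
  have h3 := h1.mul h2
  have h5 : (Real.Gamma * fun s : ℝ => Real.Gamma (s + 1 / 2)) =
      fun s : ℝ => Real.Gamma (2 * s) * 2 ^ (1 - 2 * s) * √Real.pi := by
    funext s
    exact Real.Gamma_mul_Gamma_add_half s
  rw [h5] at h3
  have h6 : HasDerivAt (fun s : ℝ => 2 * s) 2 a := by simpa using (hasDerivAt_id a).const_mul (2 : ℝ)
  have h7 : HasDerivAt (fun s : ℝ => Real.Gamma (2 * s)) (Real.Gamma (2 * a) * pr 0 (2 * a) * 2) a :=
    (Gam_deriv (show 0 < 2 * a by linarith)).comp a h6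
  have h8 : HasDerivAt (fun s : ℝ => (2 : ℝ) ^ (1 - 2 * s)) ((2 : ℝ) ^ (1 - 2 * a) * Real.log 2 * (-2)) a := by
    have h9 : HasDerivAt (fun s : ℝ => 1 - 2 * s) (-2) a := h6.const_sub 1
    have h10 := (Real.hasStrictDerivAt_const_rpow two_pos (1 - 2 * a)).hasDerivAt.comp a h9
    exact h10
  have h9 := ((h7.mul h8).mul_const √Real.pi)
  have h10 := h3.unique h9
  have h11 := Real.Gamma_mul_Gamma_add_half a
  have h12 : (Real.Gamma a * Real.Gamma (a + 1 / 2)) * (pr 0 a + pr 0 (a + 1 / 2)) =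
      (Real.Gamma a * Real.Gamma (a + 1 / 2)) * (2 * pr 0 (2 * a) - 2 * Real.log 2) := by
    have e : (Real.Gamma a * Real.Gamma (a + 1 / 2)) * (pr 0 a + pr 0 (a + 1 / 2)) =
      Real.Gamma a * pr 0 a * Real.Gamma (a + 1 / 2) + Real.Gamma a * (Real.Gamma (a + 1 / 2) * pr 0 (a + 1 / 2)) := by
      ring
    rw [e, h10, h11]
    ring
  exact mul_left_cancel₀ (mul_ne_zero (Real.Gamma_pos_of_pos ha).ne' (Real.Gamma_pos_of_pos (by linarith)).ne') h12

lemma dup_pr (i : ℕ) : ∀ {a : ℝ}, 0 < a → pr (i + 1) a + pr (i + 1) (a + 1 / 2) = 2 ^ (i + 2) * pr (i + 1) (2 * a) := by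
  have key : ∀ (j : ℕ) {a : ℝ}, 0 < a → HasDerivAt (fun s => pr j s + pr j (s + 1 / 2))
      (pr (j + 1) a + pr (j + 1) (a + 1 / 2)) a := by
    intro j a ha
    have h2 : HasDerivAt (fun s : ℝ => pr j (s + 1 / 2)) (pr (j + 1) (a + 1 / 2)) a :=
      HasDerivAt.comp_add_const a (1 / 2) (pr_deriv j (show 0 < a + 1 / 2 by linarith))
    exact (pr_deriv j ha).add h2
  have key2 : ∀ (j : ℕ) {a : ℝ}, 0 < a → HasDerivAt (fun s => pr j (2 * s)) (pr (j + 1) (2 * a) * 2) a := by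
    intro j a ha
    have h6 : HasDerivAt (fun s : ℝ => 2 * s) 2 a := by simpa using (hasDerivAt_id a).const_mul (2 : ℝ)
    exact (pr_deriv j (show 0 < 2 * a by linarith)).comp a h6
  induction i with
  | zero =>
    intro a ha
    have h1 := key 0 ha
    have h2 : HasDerivAt (fun s => pr 0 s + pr 0 (s + 1 / 2)) (2 * (pr 1 (2 * a) * 2)) a := by
      refine (((key2 0 ha).const_mul 2).sub_const (2 * Real.log 2)).congr_of_eventuallyEq ?_
      filter_upwards [Ioi_mem_nhds ha] with y hy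
      exact dup_zero hy
    rw [h1.unique h2]
    ring
  | succ i ih =>
    intro a ha
    have h1 := key (i + 1) ha
    have h2 : HasDerivAt (fun s => pr (i + 1) s + pr (i + 1) (s + 1 / 2)) (2 ^ (i + 2) * (pr (i + 1 + 1) (2 * a) * 2)) a := by
      refine ((key2 (i + 1) ha).const_mul (2 ^ (i + 2))).congr_of_eventuallyEq ?_
      filter_upwards [Ioi_mem_nhds ha] with y hy
      exact ih hy
    rw [h1.unique h2]
    ring

lemma dup_hz {s : ℕ} (hs : 2 ≤ s) {a : ℝ} (ha : 0 < a) : hz s a + hz s (a + 1 / 2) = 2 ^ s * hz s (2 * a) := by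
  obtain ⟨i, rfl⟩ : ∃ i, s = i + 2 := ⟨s - 2, by omega⟩
  have h := dup_pr i ha
  simp only [pr] at h
  have h6 : (-1 : ℝ) ^ i * (i + 1).factorial ≠ 0 := mul_ne_zero (pow_ne_zero _ (by norm_num)) (by positivity)
  refine mul_left_cancel₀ h6 ?_
  linear_combination h

end Pool.Agent.W5h34.RG
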