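import Pool.Agent.W5h34.RG.Gam

/-!
# The constants at the exponents `1/2, 1/4, 3/4, 1/3, 2/3, 1/6, 5/6`
-/

set_option autoImplicit false

open Filter Topology Set MeasureTheory

namespace Pool.Agent.W5h34.RG

open Pool.Agent.R352.E (zt clF subset_clF clF_mono clF_le of_pow rat_mem mem_clF)

/-! ## triplication -/

lemma summ_dg {a : ℝ} (ha : 0 < a) : Summable (fun n : ℕ => 1 / ((n : ℝ) + 1) - 1 / (a + ((n : ℝ) + 1))) := by
  refine Summable.of_nonneg_of_le (fun n => ?_) (fun n => ?_) ((Pool.Agent.R352.T.summ_one 2 le_rfl).mul_left a)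
  · rw [sub_nonneg]
    exact one_div_le_one_div_of_le (by positivity) (by linarith)
  · rw [div_sub_div _ _ (by positivity) (by positivity), mul_one_div, div_le_div_iff₀ (by positivity) (by positivity)]
    have h1 : (0 : ℝ) ≤ n := Nat.cast_nonneg n
    have h2 : 0 ≤ a * a * ((n : ℝ) + 1) := by positivity
    nlinarith

lemma harm_eq (N : ℕ) : ((harmonic N : ℚ) : ℝ) = ∑ n ∈ Finset.range N, 1 / ((n : ℝ) + 1) := by
  rw [harmonic]
  push_cast
  refine Finset.sum_congr rfl fun n _ => ?_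
  rw [one_div]

lemma pr_tendsto {a : ℝ} (ha : 0 < a) : Tendsto (fun N : ℕ => -Real.eulerMascheroniConstant + ((harmonic N : ℚ) : ℝ) -
    ∑ n ∈ Finset.range (N + 1), 1 / ((n : ℝ) + a)) atTop (𝓝 (pr 0 a)) := by
  have h := ((summ_dg ha).hasSum.tendsto_sum_nat).const_add (-Real.eulerMascheroniConstant - 1 / a)
  refine h.congr fun N => ?_
  rw [Finset.sum_range_succ' _ N, Finset.sum_sub_distrib, harm_eq]
  have : ∑ n ∈ Finset.range N, 1 / (((n + 1 : ℕ) : ℝ) + a) = ∑ n ∈ Finset.range N, 1 / (a + ((n : ℝ) + 1)) := by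
    refine Finset.sum_congr rfl fun n _ => ?_
    push_cast
    ring
  rw [this]
  push_cast
  rw [zero_add]
  ring

lemma three_sum (N : ℕ) : ∑ n ∈ Finset.range N, 1 / ((n : ℝ) + 1 / 3) + ∑ n ∈ Finset.range N, 1 / ((n : ℝ) + 2 / 3) +
    ∑ n ∈ Finset.range N, 1 / ((n : ℝ) + 1) = 3 * ((harmonic (3 * N) : ℚ) : ℝ) := by
  induction N with
  | zero => simp
  | succ N ih =>
    have e : 3 * (N + 1) = 3 * N + 1 + 1 + 1 := by ring
    rw [Finset.sum_range_succ, Finset.sum_range_succ, Finset.sum_range_succ, e, harmonic_succ, harmonic_succ, harmonic_succ]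
    push_cast
    have h1 : (N : ℝ) + 1 / 3 ≠ 0 := by positivity
    have h2 : (N : ℝ) + 2 / 3 ≠ 0 := by positivity
    have h3 : (N : ℝ) + 1 ≠ 0 := by positivity
    have e1 : 1 / ((N : ℝ) + 1 / 3) = 3 * (3 * (N : ℝ) + 1)⁻¹ := by
      have : (3 * (N : ℝ) + 1) = 3 * (N + 1 / 3) := by ring
      rw [this]; field_simp
    have e2 : 1 / ((N : ℝ) + 2 / 3) = 3 * (3 * (N : ℝ) + 1 + 1)⁻¹ := by
      have : (3 * (N : ℝ) + 1 + 1) = 3 * (N + 2 / 3) := by ring
      rw [this]; field_simp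
    have e3 : 1 / ((N : ℝ) + 1) = 3 * (3 * (N : ℝ) + 1 + 1 + 1)⁻¹ := by
      have : (3 * (N : ℝ) + 1 + 1 + 1) = 3 * (N + 1) := by ring
      rw [this]; field_simp
    rw [e1, e2, e3]
    linear_combination ih

lemma trip_zero : pr 0 (1 / 3) + pr 0 (2 / 3) = -2 * Real.eulerMascheroniConstant - 3 * Real.log 3 := by
  have h1 := ((pr_tendsto (a := 1 / 3) (by norm_num)).add (pr_tendsto (a := 2 / 3) (by norm_num))).add
    (pr_tendsto (a := 1) one_pos)
  rw [pr_zero_one] at h1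
  have h2 : Tendsto (fun N : ℕ => ((harmonic N : ℚ) : ℝ) - Real.log N) atTop (𝓝 Real.eulerMascheroniConstant) :=
    Real.tendsto_harmonic_sub_log
  have h3 : Tendsto (fun N : ℕ => ((harmonic (3 * (N + 1)) : ℚ) : ℝ) - Real.log ((3 * (N + 1) : ℕ) : ℝ)) atTop
      (𝓝 Real.eulerMascheroniConstant) := by
    refine h2.comp (tendsto_atTop_mono (fun N => ?_) tendsto_id)
    show N ≤ 3 * (N + 1)
    omega
  have h4 : Tendsto (fun N : ℕ => Real.log N - Real.log ((3 * (N + 1) : ℕ) : ℝ)) atTop (𝓝 (-Real.log 3)) := by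
    have h5 : Tendsto (fun N : ℕ => (N : ℝ) / ((N : ℝ) + 1)) atTop (𝓝 1) := tendsto_natCast_div_add_atTop 1
    have h6 := (h5.log one_ne_zero).sub_const (Real.log 3)
    rw [Real.log_one, zero_sub] at h6
    refine h6.congr' ?_
    filter_upwards [eventually_gt_atTop 0] with N hN
    have hN' : (0 : ℝ) < N := by exact_mod_cast hN
    push_cast
    rw [Real.log_div hN'.ne' (by positivity), Real.log_mul (by norm_num) (by positivity)]
    ring
  have h5 : Tendsto (fun N : ℕ => -3 * Real.eulerMascheroniConstant + 3 * (((harmonic N : ℚ) : ℝ) - Real.log N) -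
      3 * (((harmonic (3 * (N + 1)) : ℚ) : ℝ) - Real.log ((3 * (N + 1) : ℕ) : ℝ)) +
      3 * (Real.log N - Real.log ((3 * (N + 1) : ℕ) : ℝ))) atTop
      (𝓝 (-3 * Real.eulerMascheroniConstant + 3 * Real.eulerMascheroniConstant - 3 * Real.eulerMascheroniConstant +
        3 * (-Real.log 3))) :=
    (((h2.const_mul 3).const_add (-3 * Real.eulerMascheroniConstant)).sub (h3.const_mul 3)).add (h4.const_mul 3)
  have h6 := h1.congr (f₂ := fun N : ℕ => -3 * Real.eulerMascheroniConstant + 3 * (((harmonic N : ℚ) : ℝ) - Real.log N) -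
      3 * (((harmonic (3 * (N + 1)) : ℚ) : ℝ) - Real.log ((3 * (N + 1) : ℕ) : ℝ)) +
      3 * (Real.log N - Real.log ((3 * (N + 1) : ℕ) : ℝ))) (fun N => by
    have := three_sum (N + 1)
    linear_combination -this)
  have h7 := tendsto_nhds_unique h6 h5
  linarith

lemma trip_hz {s : ℕ} (hs : 2 ≤ s) : hz s (1 / 3) + hz s (2 / 3) = (3 ^ s - 1) * zt s := by
  have h0 := Pool.Agent.R352.T.summ_one s hs
  have h1 := Nat.sumByResidueClasses h0 3
  have e0 : ∑' n : ℕ, 1 / ((n : ℝ) + 1) ^ s = zt s := rfl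
  rw [e0] at h1
  have h2 : ∑ j : ZMod 3, ∑' m : ℕ, 1 / (((j.val + 3 * m : ℕ) : ℝ) + 1) ^ s =
      ∑' m : ℕ, 1 / (((0 + 3 * m : ℕ) : ℝ) + 1) ^ s + ∑' m : ℕ, 1 / (((1 + 3 * m : ℕ) : ℝ) + 1) ^ s +
      ∑' m : ℕ, 1 / (((2 + 3 * m : ℕ) : ℝ) + 1) ^ s := Fin.sum_univ_three _
  have key : ∀ (j : ℕ) (a : ℝ), 3 * a = j + 1 → 0 < a → ∑' m : ℕ, 1 / (((j + 3 * m : ℕ) : ℝ) + 1) ^ s = 1 / 3 ^ s * hz s a := by
    intro j a hja _
    rw [hz, ← tsum_mul_left]
    refine tsum_congr fun m => ?_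
    have : ((j + 3 * m : ℕ) : ℝ) + 1 = 3 * (m + a) := by push_cast; linarith
    rw [this, mul_pow]
    field_simp
  rw [h2, key 0 (1 / 3) (by norm_num) (by norm_num), key 1 (2 / 3) (by norm_num) (by norm_num),
    key 2 1 (by norm_num) (by norm_num)] at h1
  have e1 : hz s 1 = zt s := rfl
  rw [e1] at h1
  have h3 : (3 : ℝ) ^ s ≠ 0 := by positivity
  field_simp at h1
  linarith

/-! ## the `L`-values -/

/-- `β(s) = ∑ (-1)^n / (2n+1)^s` -/
noncomputable def bt (s : ℕ) : ℝ := ∑' n : ℕ, (-1) ^ n / (2 * (n : ℝ) + 1) ^ s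

/-- `L(s, χ₋₃) = ∑ (1 / (3n+1)^s - 1 / (3n+2)^s)` -/
noncomputable def l3 (s : ℕ) : ℝ := ∑' n : ℕ, (1 / (3 * (n : ℝ) + 1) ^ s - 1 / (3 * (n : ℝ) + 2) ^ s)

lemma bt_eq {s : ℕ} (hs : 2 ≤ s) : hz s (1 / 4) - hz s (3 / 4) = 4 ^ s * bt s := by
  have h0 : Summable (fun n : ℕ => (-1 : ℝ) ^ n / (2 * (n : ℝ) + 1) ^ s) := by
    refine Summable.of_norm_bounded (Pool.Agent.R352.T.summ_one s hs) fun n => ?_
    rw [norm_div, norm_pow, norm_neg, norm_one, one_pow, Real.norm_eq_abs, abs_of_nonneg (by positivity)]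
    refine one_div_le_one_div_of_le (by positivity) (pow_le_pow_left₀ (by positivity) ?_ s)
    have : (0 : ℝ) ≤ n := Nat.cast_nonneg n
    linarith
  have he : Summable (fun n : ℕ => (-1 : ℝ) ^ (2 * n) / (2 * ((2 * n : ℕ) : ℝ) + 1) ^ s) :=
    h0.comp_injective (i := fun n : ℕ => 2 * n) (fun a b h => by
      have : 2 * a = 2 * b := h
      omega)
  have ho : Summable (fun n : ℕ => (-1 : ℝ) ^ (2 * n + 1) / (2 * ((2 * n + 1 : ℕ) : ℝ) + 1) ^ s) :=
    h0.comp_injective (i := fun n : ℕ => 2 * n + 1) (fun a b h => by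
      have : 2 * a + 1 = 2 * b + 1 := h
      omega)
  have h1 := tsum_even_add_odd (f := fun n : ℕ => (-1 : ℝ) ^ n / (2 * (n : ℝ) + 1) ^ s) he ho
  have e1 : ∑' n : ℕ, (-1 : ℝ) ^ (2 * n) / (2 * ((2 * n : ℕ) : ℝ) + 1) ^ s = 1 / 4 ^ s * hz s (1 / 4) := by
    rw [hz, ← tsum_mul_left]
    refine tsum_congr fun n => ?_
    have : 2 * ((2 * n : ℕ) : ℝ) + 1 = 4 * (n + 1 / 4) := by push_cast; ring
    rw [this, mul_pow, pow_mul]
    norm_num
    field_simp
  have e2 : ∑' n : ℕ, (-1 : ℝ) ^ (2 * n + 1) / (2 * ((2 * n + 1 : ℕ) : ℝ) + 1) ^ s = -(1 / 4 ^ s * hz s (3 / 4)) := by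
    rw [hz, ← tsum_mul_left, ← tsum_neg]
    refine tsum_congr fun n => ?_
    have : 2 * ((2 * n + 1 : ℕ) : ℝ) + 1 = 4 * (n + 3 / 4) := by push_cast; ring
    rw [this, mul_pow, pow_succ, pow_mul]
    norm_num
    field_simp
  rw [e1, e2] at h1
  have e3 : ∑' k : ℕ, (-1 : ℝ) ^ k / (2 * (k : ℝ) + 1) ^ s = bt s := rfl
  rw [e3] at h1
  have h3 : (4 : ℝ) ^ s ≠ 0 := by positivity
  rw [← h1]
  field_simp
  ring

lemma l3_eq {s : ℕ} (hs : 2 ≤ s) : hz s (1 / 3) - hz s (2 / 3) = 3 ^ s * l3 s := by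
  rw [hz, hz, ← (summ_hz hs (by norm_num)).tsum_sub (summ_hz hs (by norm_num)), l3, ← tsum_mul_left]
  refine tsum_congr fun n => ?_
  have e1 : (3 * (n : ℝ) + 1) = 3 * (n + 1 / 3) := by ring
  have e2 : (3 * (n : ℝ) + 2) = 3 * (n + 2 / 3) := by ring
  rw [e1, e2, mul_pow, mul_pow]
  field_simp

/-! ## membership -/

/-- the constants attached to the exponent `a` -/
structure Kn (T : Set ℝ) (a : ℝ) (L : ℕ) : Prop where
  gam : Real.Gamma a ∈ clF T
  psi : pr 0 a + Real.eulerMascheroniConstant ∈ clF T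
  hzm : ∀ s, 2 ≤ s → s ≤ L → hz s a ∈ clF T

section

variable {T : Set ℝ}

lemma two_mem : (2 : ℝ) ∈ clF T := by exact_mod_cast natCast_mem (clF T) 2
lemma three_mem : (3 : ℝ) ∈ clF T := by exact_mod_cast natCast_mem (clF T) 3
lemma four_mem : (4 : ℝ) ∈ clF T := by exact_mod_cast natCast_mem (clF T) 4

lemma of_sum_diff {x y : ℝ} (h1 : x + y ∈ clF T) (h2 : x - y ∈ clF T) : x ∈ clF T ∧ y ∈ clF T := by
  constructor
  · have : x = ((x + y) + (x - y)) / 2 := by ring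
    rw [this]
    exact (clF T).div_mem ((clF T).add_mem h1 h2) two_mem
  · have : y = ((x + y) - (x - y)) / 2 := by ring
    rw [this]
    exact (clF T).div_mem ((clF T).sub_mem h1 h2) two_mem

lemma Kn_half {L : ℕ} (hpi : Real.pi ∈ clF T) (h2 : Real.log 2 ∈ clF T) (hz' : ∀ s, 2 ≤ s → s ≤ L → zt s ∈ clF T) :
    Kn T (1 / 2) L := by
  refine ⟨?_, ?_, fun s hs hs' => ?_⟩
  · rw [Real.Gamma_one_half_eq]
    exact of_pow (n := 2) (by norm_num) (by rw [Real.sq_sqrt Real.pi_pos.le]; exact hpi)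
  · have h := dup_zero (a := 1 / 2) (by norm_num)
    have e : (1 / 2 : ℝ) + 1 / 2 = 1 := by norm_num
    have e2 : (2 : ℝ) * (1 / 2) = 1 := by norm_num
    rw [e, e2, pr_zero_one] at h
    have h3 : pr 0 (1 / 2) + Real.eulerMascheroniConstant = -(2 * Real.log 2) := by linarith
    rw [h3]
    exact (clF T).neg_mem ((clF T).mul_mem two_mem h2)
  · have h := dup_hz hs (a := 1 / 2) (by norm_num)
    have e : (1 / 2 : ℝ) + 1 / 2 = 1 := by norm_num
    have e2 : (2 : ℝ) * (1 / 2) = 1 := by norm_num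
    have e3 : hz s 1 = zt s := rfl
    rw [e, e2, e3] at h
    have h3 : hz s (1 / 2) = 2 ^ s * zt s - zt s := by linarith
    rw [h3]
    exact (clF T).sub_mem ((clF T).mul_mem ((clF T).pow_mem two_mem _) (hz' s hs hs')) (hz' s hs hs')

lemma Kn_quarter {L : ℕ} (hpi : Real.pi ∈ clF T) (h2 : Real.log 2 ∈ clF T) (hz' : ∀ s, 2 ≤ s → s ≤ L → zt s ∈ clF T)
    (hG : Real.Gamma (1 / 4) ∈ clF T) (hb : ∀ s, 2 ≤ s → s ≤ L → Even s → bt s ∈ clF T) :
    Kn T (1 / 4) L ∧ Kn T (3 / 4) L := by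
  have hh := Kn_half hpi h2 hz'
  have e : (1 / 4 : ℝ) + 1 / 2 = 3 / 4 := by norm_num
  have e2 : (2 : ℝ) * (1 / 4) = 1 / 2 := by norm_num
  have e3 : (((1 - 1 / 4 : ℚ)) : ℝ) = 3 / 4 := by norm_num
  have e4 : (((1 / 4 : ℚ)) : ℝ) = 1 / 4 := by norm_num
  have hg : Real.Gamma (3 / 4) ∈ clF T := by
    have := Gam_refl (a := 1 / 4) hpi (by norm_num) (by rw [e4]; exact hG)
    rwa [e3] at this
  have hp : pr 0 (1 / 4) + Real.eulerMascheroniConstant ∈ clF T ∧ pr 0 (3 / 4) + Real.eulerMascheroniConstant ∈ clF T := by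
    refine of_sum_diff ?_ ?_
    · have h := dup_zero (a := 1 / 4) (by norm_num)
      rw [e, e2] at h
      have h3 : pr 0 (1 / 4) + Real.eulerMascheroniConstant + (pr 0 (3 / 4) + Real.eulerMascheroniConstant) =
          2 * (pr 0 (1 / 2) + Real.eulerMascheroniConstant) - 2 * Real.log 2 := by linarith
      rw [h3]
      exact (clF T).sub_mem ((clF T).mul_mem two_mem hh.psi) ((clF T).mul_mem two_mem h2)
    · have h := Dr_mem hpi (a := 1 / 4) (by norm_num) (by norm_num) 0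
      rw [Dr, e4, pow_zero, one_mul] at h
      have e5 : (1 : ℝ) - 1 / 4 = 3 / 4 := by norm_num
      rw [e5] at h
      have h3 : pr 0 (1 / 4) + Real.eulerMascheroniConstant - (pr 0 (3 / 4) + Real.eulerMascheroniConstant) =
          -(pr 0 (3 / 4) - pr 0 (1 / 4)) := by ring
      rw [h3]
      exact (clF T).neg_mem h
  have hz2 : ∀ s, 2 ≤ s → s ≤ L → hz s (1 / 4) ∈ clF T ∧ hz s (3 / 4) ∈ clF T := by
    intro s hs hs'
    refine of_sum_diff ?_ ?_
    · have h := dup_hz hs (a := 1 / 4) (by norm_num)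
      rw [e, e2] at h
      rw [h]
      exact (clF T).mul_mem ((clF T).pow_mem two_mem _) (hh.hzm s hs hs')
    · rcases Nat.even_or_odd s with h | h
      · rw [bt_eq hs]
        exact (clF T).mul_mem ((clF T).pow_mem four_mem _) (hb s hs hs' h)
      · have h3 := hz_par hpi (a := 1 / 4) (by norm_num) (by norm_num) hs
        rw [e3, e4, h.neg_one_pow] at h3
        have h4 : hz s (1 / 4) - hz s (3 / 4) = hz s (1 / 4) + -1 * hz s (3 / 4) := by ring
        rw [h4]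
        exact h3
  exact ⟨⟨hG, hp.1, fun s hs hs' => (hz2 s hs hs').1⟩, ⟨hg, hp.2, fun s hs hs' => (hz2 s hs hs').2⟩⟩

lemma Kn_third {L : ℕ} (hpi : Real.pi ∈ clF T) (h3 : Real.log 3 ∈ clF T) (hz' : ∀ s, 2 ≤ s → s ≤ L → zt s ∈ clF T)
    (hG : Real.Gamma (1 / 3) ∈ clF T) (hb : ∀ s, 2 ≤ s → s ≤ L → Even s → l3 s ∈ clF T) :
    Kn T (1 / 3) L ∧ Kn T (2 / 3) L := by
  have e3 : (((1 - 1 / 3 : ℚ)) : ℝ) = 2 / 3 := by norm_num
  have e4 : (((1 / 3 : ℚ)) : ℝ) = 1 / 3 := by norm_num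
  have hg : Real.Gamma (2 / 3) ∈ clF T := by
    have := Gam_refl (a := 1 / 3) hpi (by norm_num) (by rw [e4]; exact hG)
    rwa [e3] at this
  have hp : pr 0 (1 / 3) + Real.eulerMascheroniConstant ∈ clF T ∧ pr 0 (2 / 3) + Real.eulerMascheroniConstant ∈ clF T := by
    refine of_sum_diff ?_ ?_
    · have h := trip_zero
      have h3' : pr 0 (1 / 3) + Real.eulerMascheroniConstant + (pr 0 (2 / 3) + Real.eulerMascheroniConstant) =
          -(3 * Real.log 3) := by linarith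
      rw [h3']
      exact (clF T).neg_mem ((clF T).mul_mem three_mem h3)
    · have h := Dr_mem hpi (a := 1 / 3) (by norm_num) (by norm_num) 0
      rw [Dr, e4, pow_zero, one_mul] at h
      have e5 : (1 : ℝ) - 1 / 3 = 2 / 3 := by norm_num
      rw [e5] at h
      have h3 : pr 0 (1 / 3) + Real.eulerMascheroniConstant - (pr 0 (2 / 3) + Real.eulerMascheroniConstant) =
          -(pr 0 (2 / 3) - pr 0 (1 / 3)) := by ring
      rw [h3]
      exact (clF T).neg_mem h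
  have hz2 : ∀ s, 2 ≤ s → s ≤ L → hz s (1 / 3) ∈ clF T ∧ hz s (2 / 3) ∈ clF T := by
    intro s hs hs'
    refine of_sum_diff ?_ ?_
    · rw [trip_hz hs]
      exact (clF T).mul_mem ((clF T).sub_mem ((clF T).pow_mem three_mem _) (clF T).one_mem) (hz' s hs hs')
    · rcases Nat.even_or_odd s with h | h
      · rw [l3_eq hs]
        exact (clF T).mul_mem ((clF T).pow_mem three_mem _) (hb s hs hs' h)
      · have h3 := hz_par hpi (a := 1 / 3) (by norm_num) (by norm_num) hs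
        rw [e3, e4, h.neg_one_pow] at h3
        have h4 : hz s (1 / 3) - hz s (2 / 3) = hz s (1 / 3) + -1 * hz s (2 / 3) := by ring
        rw [h4]
        exact h3
  exact ⟨⟨hG, hp.1, fun s hs hs' => (hz2 s hs hs').1⟩, ⟨hg, hp.2, fun s hs hs' => (hz2 s hs hs').2⟩⟩

/-- duplication: from `2a` and `a + 1/2` to `a` -/
lemma Kn_dup {L : ℕ} {a : ℚ} (ha : 0 < a) (hpi : Real.pi ∈ clF T) (h2 : Real.log 2 ∈ clF T) (h : Kn T (2 * a) L)
    (h' : Kn T (a + 1 / 2) L) : Kn T a L := by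
  have ha' : (0 : ℝ) < a := by exact_mod_cast ha
  refine ⟨?_, ?_, fun s hs hs' => ?_⟩
  · have h1 := Real.Gamma_mul_Gamma_add_half (a : ℝ)
    have h3 : Real.Gamma a = Real.Gamma (2 * a) * 2 ^ (1 - 2 * (a : ℝ)) * √Real.pi / Real.Gamma (a + 1 / 2) := by
      rw [eq_div_iff (Real.Gamma_pos_of_pos (by linarith)).ne', h1]
    rw [h3]
    refine (clF T).div_mem ((clF T).mul_mem ((clF T).mul_mem h.gam ?_) ?_) h'.gam
    · have := Pool.Agent.R352.T.rpow_mem (T := T) (x := 2) (by norm_num) (1 - 2 * a)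
      push_cast at this
      exact this
    · exact of_pow (n := 2) (by norm_num) (by rw [Real.sq_sqrt Real.pi_pos.le]; exact hpi)
  · have h1 := dup_zero ha'
    have h3 : pr 0 a + Real.eulerMascheroniConstant = 2 * (pr 0 (2 * a) + Real.eulerMascheroniConstant) -
        2 * Real.log 2 - (pr 0 (a + 1 / 2) + Real.eulerMascheroniConstant) := by linarith
    rw [h3]
    exact (clF T).sub_mem ((clF T).sub_mem ((clF T).mul_mem two_mem h.psi) ((clF T).mul_mem two_mem h2)) h'.psi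
  · have h1 := dup_hz hs ha'
    have h3 : hz s a = 2 ^ s * hz s (2 * a) - hz s (a + 1 / 2) := by linarith
    rw [h3]
    exact (clF T).sub_mem ((clF T).mul_mem ((clF T).pow_mem two_mem _) (h.hzm s hs hs')) (h'.hzm s hs hs')

/-- reflection -/
lemma Kn_refl {L : ℕ} {a : ℚ} (ha : 0 < a) (ha1 : a < 1) (hpi : Real.pi ∈ clF T) (h : Kn T a L) :
    Kn T ((1 - a : ℚ) : ℝ) L := by
  refine ⟨Gam_refl hpi ha h.gam, ?_, fun s hs hs' => hz_refl hpi ha ha1 hs (h.hzm s hs hs')⟩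
  refine pr_refl hpi ha ha1 0 ?_
  rw [pow_zero, one_mul]
  exact h.psi

lemma Kn_sixth {L : ℕ} (hpi : Real.pi ∈ clF T) (h2 : Real.log 2 ∈ clF T) (h : Kn T (1 / 3) L) (h' : Kn T (2 / 3) L) :
    Kn T (1 / 6) L ∧ Kn T (5 / 6) L := by
  have h1 : Kn T (1 / 6) L := by
    have := Kn_dup (a := 1 / 6) (L := L) (T := T) (by norm_num) hpi h2 (by convert h using 1; norm_num)
      (by convert h' using 1; norm_num)
    convert this using 1; norm_num
  refine ⟨h1, ?_⟩
  have := Kn_refl (a := 1 / 6) (L := L) (T := T) (by norm_num) (by norm_num) hpi (by convert h1 using 1; norm_num)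
  convert this using 1; norm_num

end

end Pool.Agent.W5h34.RG
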